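import Pool.Agent.H7.HZ.Stmts

/-!
# Board `hz12`, row NS2: blocks with `s ≥ 2` (MP_fd41b2_co)
-/

set_option autoImplicit false

open Finset

namespace Pool.HZ7

open Pool.Agent.H23.KT Pool.Agent.H46.KW Pool.KQ Pool.GT7 Pool.GU7

/-- Newton's formulas for the first coefficients of `∏ (1 + n i X)`. -/
theorem ns2_newton {ι : Type} [DecidableEq ι] (n : ι → ℕ) (s : Finset ι) :
    ((∏ i ∈ s, (1 + Polynomial.C (n i) * Polynomial.X) : Polynomial ℕ).coeff 0 = 1) ∧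
    (((∏ i ∈ s, (1 + Polynomial.C (n i) * Polynomial.X) : Polynomial ℕ).coeff 1 : ℝ) =
      ∑ i ∈ s, (n i : ℝ)) ∧
    (2 * ((∏ i ∈ s, (1 + Polynomial.C (n i) * Polynomial.X) : Polynomial ℕ).coeff 2 : ℝ) =
      (∑ i ∈ s, (n i : ℝ)) ^ 2 - ∑ i ∈ s, (n i : ℝ) ^ 2) ∧
    (6 * ((∏ i ∈ s, (1 + Polynomial.C (n i) * Polynomial.X) : Polynomial ℕ).coeff 3 : ℝ) =
      (∑ i ∈ s, (n i : ℝ)) ^ 3 - 3 * (∑ i ∈ s, (n i : ℝ)) * (∑ i ∈ s, (n i : ℝ) ^ 2) +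
        2 * ∑ i ∈ s, (n i : ℝ) ^ 3) := by
  induction s using Finset.induction_on with
  | empty =>
    simp [Polynomial.coeff_one]
  | insert i s hi ih =>
    obtain ⟨h0, h1, h2, h3⟩ := ih
    rw [Finset.prod_insert hi, Finset.sum_insert hi, Finset.sum_insert hi, Finset.sum_insert hi]
    set Q : Polynomial ℕ := ∏ i ∈ s, (1 + Polynomial.C (n i) * Polynomial.X) with hQ
    have step : ∀ k, ((1 + Polynomial.C (n i) * Polynomial.X) * Q).coeff (k + 1) =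
        Q.coeff (k + 1) + n i * Q.coeff k := by
      intro k
      rw [add_mul, one_mul, Polynomial.coeff_add, mul_assoc, Polynomial.coeff_C_mul,
        Polynomial.coeff_X_mul]
    have step0 : ((1 + Polynomial.C (n i) * Polynomial.X) * Q).coeff 0 = Q.coeff 0 := by
      rw [add_mul, one_mul, Polynomial.coeff_add, mul_assoc, Polynomial.coeff_C_mul,
        Polynomial.coeff_X_mul_zero]
      simp
    refine ⟨by rw [step0, h0], ?_, ?_, ?_⟩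
    · rw [step 0, h0]
      push_cast
      rw [h1]
      ring
    · rw [step 1]
      push_cast
      linear_combination h2 + 2 * (n i : ℝ) * h1
    · rw [step 2]
      push_cast
      linear_combination h3 + 3 * (n i : ℝ) * h2

/-- The polynomial of `Psi`. -/
noncomputable def ns2_P (p r s S2 S3 a : ℝ) : ℝ :=
  (((p + 4) * (a + s) - ((p + 3) * s - r)) ^ 3 -
      3 * ((p + 4) * (a + s) - ((p + 3) * s - r)) *
        ((p + 4) * (a + s) ^ 2 - 2 * (a + s) * ((p + 3) * s - r) + S2) +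
      2 * ((p + 4) * (a + s) ^ 3 - 3 * (a + s) ^ 2 * ((p + 3) * s - r) + 3 * (a + s) * S2 - S3)) / 6 -
    1 / 2 * ((p + 2) * a + r - s) * ((a + s) * ((p + 3) * s - r) - S2) -
    1 / 2 * ((a + s) * (S2 + ((p + 3) * s - r)) - S3 - S2)

theorem ns2_poly (p r s S2 S3 a : ℝ) :
    ns2_P p r s S2 S3 a = (p + 4) * (p + 3) * (p + 2) / 6 * a ^ 3 +
      r * (p + 4) * (p + 2) / 2 * a ^ 2 +
      (ns2_P p r s S2 S3 1 - ns2_P p r s S2 S3 0 - (p + 4) * (p + 3) * (p + 2) / 6 -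
        r * (p + 4) * (p + 2) / 2) * a + ns2_P p r s S2 S3 0 := by
  unfold ns2_P
  ring

theorem ns2_Psi (p r a s : ℕ) (n σ : Fin (p + 4) → ℕ) (hn : ∀ j, n j + σ j = a + s)
    (hs : ∑ j, σ j + r = (p + 3) * s) :
    Psi p r a s n σ = ns2_P p r s ((∑ j, σ j ^ 2 : ℕ) : ℝ) ((∑ j, σ j ^ 3 : ℕ) : ℝ) a := by
  have hnr : ∀ j, (n j : ℝ) = (a : ℝ) + s - σ j := by
    intro j
    have h : ((n j + σ j : ℕ) : ℝ) = ((a + s : ℕ) : ℝ) := by rw [hn j]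
    push_cast at h
    linarith
  have hS1 : ∑ j, (σ j : ℝ) = ((p : ℝ) + 3) * s - r := by
    have h : ((∑ j, σ j + r : ℕ) : ℝ) = (((p + 3) * s : ℕ) : ℝ) := by rw [hs]
    push_cast at h
    linarith
  have e1' : ∑ j, (n j : ℝ) = ((p : ℝ) + 4) * (a + s) - (((p : ℝ) + 3) * s - r) := by
    simp only [hnr, Finset.sum_sub_distrib, hS1, Finset.sum_const, Finset.card_univ,
      Fintype.card_fin, nsmul_eq_mul]
    push_cast
    ring
  have e2' : ∑ j, (n j : ℝ) ^ 2 = ((p : ℝ) + 4) * (a + s) ^ 2 -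
      2 * (a + s) * (((p : ℝ) + 3) * s - r) + ((∑ j, σ j ^ 2 : ℕ) : ℝ) := by
    have h : ∀ j, (n j : ℝ) ^ 2 = ((a : ℝ) + s) ^ 2 - 2 * ((a : ℝ) + s) * (σ j : ℝ) +
        (σ j : ℝ) ^ 2 := by
      intro j
      rw [hnr]
      ring
    simp only [h, Finset.sum_add_distrib, Finset.sum_sub_distrib, ← Finset.mul_sum, hS1,
      Finset.sum_const, Finset.card_univ, Fintype.card_fin, nsmul_eq_mul]
    push_cast
    ring
  have e3' : ∑ j, (n j : ℝ) ^ 3 = ((p : ℝ) + 4) * (a + s) ^ 3 -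
      3 * (a + s) ^ 2 * (((p : ℝ) + 3) * s - r) + 3 * (a + s) * ((∑ j, σ j ^ 2 : ℕ) : ℝ) -
      ((∑ j, σ j ^ 3 : ℕ) : ℝ) := by
    have h : ∀ j, (n j : ℝ) ^ 3 = ((a : ℝ) + s) ^ 3 - 3 * ((a : ℝ) + s) ^ 2 * (σ j : ℝ) +
        3 * ((a : ℝ) + s) * (σ j : ℝ) ^ 2 - (σ j : ℝ) ^ 3 := by
      intro j
      rw [hnr]
      ring
    simp only [h, Finset.sum_add_distrib, Finset.sum_sub_distrib, ← Finset.mul_sum, hS1,
      Finset.sum_const, Finset.card_univ, Fintype.card_fin, nsmul_eq_mul]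
    push_cast
    ring
  have f1 : ∑ j, (n j : ℝ) * σ j = ((a : ℝ) + s) * (((p : ℝ) + 3) * s - r) -
      ((∑ j, σ j ^ 2 : ℕ) : ℝ) := by
    have h : ∀ j, (n j : ℝ) * σ j = ((a : ℝ) + s) * (σ j : ℝ) - (σ j : ℝ) ^ 2 := by
      intro j
      rw [hnr]
      ring
    simp only [h, Finset.sum_sub_distrib, ← Finset.mul_sum, hS1]
    push_cast
    ring
  have f2 : ∑ j, (n j : ℝ) * σ j * (σ j + 1) = ((a : ℝ) + s) * (((∑ j, σ j ^ 2 : ℕ) : ℝ) +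
      (((p : ℝ) + 3) * s - r)) - ((∑ j, σ j ^ 3 : ℕ) : ℝ) - ((∑ j, σ j ^ 2 : ℕ) : ℝ) := by
    have h : ∀ j, (n j : ℝ) * σ j * (σ j + 1) = ((a : ℝ) + s) * (σ j : ℝ) ^ 2 +
        ((a : ℝ) + s) * (σ j : ℝ) - (σ j : ℝ) ^ 3 - (σ j : ℝ) ^ 2 := by
      intro j
      rw [hnr]
      ring
    simp only [h, Finset.sum_add_distrib, Finset.sum_sub_distrib, ← Finset.mul_sum, hS1]
    push_cast
    ring
  have hes : (es n 3 : ℝ) = ((∑ j, (n j : ℝ)) ^ 3 -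
      3 * (∑ j, (n j : ℝ)) * (∑ j, (n j : ℝ) ^ 2) + 2 * ∑ j, (n j : ℝ) ^ 3) / 6 := by
    have h := (ns2_newton n Finset.univ).2.2.2
    unfold es
    linarith
  unfold Psi ns2_P
  rw [hes, e1', e2', e3', f1, f2]

/-- The lower bound for the numbers `TT`. -/
theorem ns2_TT (hTTR : TTRStmt) (p a : ℕ) : ∀ s ≤ p + 4,
    (p + 4).choose 3 * a ^ 3 + s * ((p + 3).choose 2 * a ^ 2) ≤ TT (p + 4) 3 a s := by
  intro s
  induction s with
  | zero =>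
    intro _
    have := (hTTR.2.2.1 (p + 4) 3 a 0 (Nat.zero_le _)).1
    simpa using this
  | succ s ih =>
    intro hs
    have h1 := ih (by omega)
    have h2 := hTTR.1 (p + 3) 2 a s (by omega)
    have h3 := (hTTR.2.2.1 (p + 3) 2 a s (by omega)).1
    have h4 : TT (p + 4) 3 a (s + 1) = TT (p + 4) 3 a s + TT (p + 3) 2 a s := h2
    rw [h4, add_mul, one_mul]
    omega

theorem ns2_choose (p : ℕ) : (((p + 4).choose 3 : ℕ) : ℝ) = ((p : ℝ) + 4) * (p + 3) * (p + 2) / 6 ∧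
    (((p + 3).choose 2 : ℕ) : ℝ) = ((p : ℝ) + 3) * (p + 2) / 2 := by
  have h1 : (p + 3) * (p + 2).choose 1 = (p + 3).choose 2 * 2 := Nat.add_one_mul_choose_eq (p + 2) 1
  have h2 : (p + 4) * (p + 3).choose 2 = (p + 4).choose 3 * 3 := Nat.add_one_mul_choose_eq (p + 3) 2
  have h1r : ((p : ℝ) + 3) * (p + 2) = (((p + 3).choose 2 : ℕ) : ℝ) * 2 := by
    rw [Nat.choose_one_right] at h1
    exact_mod_cast h1
  have h2r : ((p : ℝ) + 4) * (((p + 3).choose 2 : ℕ) : ℝ) = (((p + 4).choose 3 : ℕ) : ℝ) * 3 := by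
    exact_mod_cast h2
  constructor
  · linear_combination -(1 / 3) * h2r - ((p : ℝ) + 4) / 6 * h1r
  · linear_combination -(1 / 2) * h1r

theorem ns2_kx (hTTR : TTRStmt) (p r a : ℕ) (hr : r ≤ p) (h1 : 1 ≤ a) :
    ((p : ℝ) + 4) * (p + 3) * (p + 2) / 6 * a ^ 3 + (r : ℝ) * (p + 4) * (p + 2) / 2 * a ^ 2 -
      (((p : ℝ) + 3) * (r + 1) / 2 + (p + 2) / 2 + (r + 1) / 2) * a ≤ kx p r a := by
  have h := ns2_TT hTTR p a (r + 1) (by omega)
  have hr' : (((p + 4).choose 3 : ℕ) : ℝ) * (a : ℝ) ^ 3 +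
      ((r : ℝ) + 1) * ((((p + 3).choose 2 : ℕ) : ℝ) * (a : ℝ) ^ 2) ≤ (TT (p + 4) 3 a (r + 1) : ℝ) := by
    exact_mod_cast h
  rw [(ns2_choose p).1, (ns2_choose p).2] at hr'
  have hcast : (((p + 3 - r : ℕ)) : ℝ) = (p : ℝ) + 3 - r := by
    rw [Nat.cast_sub (by omega)]
    push_cast
    ring
  have ha : (1 : ℝ) ≤ a := by exact_mod_cast h1
  have hr0 : (0 : ℝ) ≤ r := Nat.cast_nonneg r
  have hp0 : (0 : ℝ) ≤ p := Nat.cast_nonneg p
  have hif : (if Even ((p + 3 - r) * a) then (0 : ℝ) else Xz p r a / 2 - 1) ≤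
      ((p : ℝ) + 2) / 2 * a + ((r : ℝ) + 1) / 2 * a := by
    have h0 : (0 : ℝ) ≤ ((p : ℝ) + 2) / 2 * a + ((r : ℝ) + 1) / 2 * a := by positivity
    have h2 : ((r : ℝ) + 1) / 2 ≤ ((r : ℝ) + 1) / 2 * a := by
      nlinarith
    split_ifs
    · exact h0
    · unfold Xz
      linarith
  unfold kx
  rw [hcast]
  have hX : Xz p r a = ((p : ℝ) + 2) * a + r + 1 := rfl
  have hlin : 1 / 2 * (((p : ℝ) + 3 - r) * a) * Xz p r a ≤
      1 / 2 * ((p : ℝ) + 3 - r) * ((p : ℝ) + 2) * a ^ 2 + ((p : ℝ) + 3) * (r + 1) / 2 * a := by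
    rw [hX]
    have : 0 ≤ (r : ℝ) * (r + 1) / 2 * a := by positivity
    nlinarith
  nlinarith

/-- The final inequality, for real numbers. -/
theorem ns2_fin (A B C L M p r s a P k : ℝ) (hA : 1 ≤ A) (hB : 0 ≤ B) (hC : 0 ≤ C) (hp : 0 ≤ p)
    (hr : 0 ≤ r) (hs : 2 ≤ s) (ha : 1 ≤ a) (hT : (C + |L| + |M|) * (p + 4 + r + s + 1) ≤ a)
    (hP : P = A * a ^ 3 + B * a ^ 2 + L * a + M) (hk : A * a ^ 3 + B * a ^ 2 - C * a ≤ k) :
    P * ((p + 4) * a + r + 1) ≤ k * ((p + 4) * a + r + s) := by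
  have hl : L * a ≤ |L| * a := by gcongr; exact le_abs_self L
  have hm : M ≤ |M| * a := by
    calc M ≤ |M| * 1 := by rw [mul_one]; exact le_abs_self M
      _ ≤ |M| * a := by gcongr
  have hP' : P ≤ A * a ^ 3 + B * a ^ 2 + (|L| + |M|) * a := by
    rw [hP]
    linarith
  obtain ⟨Q, hQ⟩ : ∃ Q, Q = A * a ^ 3 + B * a ^ 2 := ⟨_, rfl⟩
  obtain ⟨E, hE⟩ : ∃ E, E = |L| + |M| := ⟨_, rfl⟩
  obtain ⟨R, hR⟩ : ∃ R, R = p + 4 + r + s + 1 := ⟨_, rfl⟩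
  have hE0 : 0 ≤ E := by rw [hE]; positivity
  have hR0 : 0 ≤ R := by rw [hR]; linarith
  have hQ0 : a ^ 3 ≤ Q := by
    have h1 : 1 * a ^ 3 ≤ A * a ^ 3 := by gcongr
    have h2 : 0 ≤ B * a ^ 2 := by positivity
    rw [hQ]
    linarith
  have hr1 : r * 1 ≤ r * a := by gcongr
  have hs1 : s * 1 ≤ s * a := by gcongr
  have hN1 : (p + 4) * a + r + 1 ≤ R * a := by
    rw [hR]
    linarith
  have hN2 : (p + 4) * a + r + s ≤ R * a := by
    rw [hR]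
    linarith
  have n1 : 0 ≤ (p + 4) * a + r + 1 := by positivity
  have n2 : 0 ≤ (p + 4) * a + r + s := by positivity
  rw [← hQ, ← hE] at hP'
  rw [← hQ] at hk
  have s1 : P * ((p + 4) * a + r + 1) ≤ (Q + E * a) * ((p + 4) * a + r + 1) := by gcongr
  have s2 : (Q - C * a) * ((p + 4) * a + r + s) ≤ k * ((p + 4) * a + r + s) := by gcongr
  have t1 : E * a * ((p + 4) * a + r + 1) ≤ E * a * (R * a) := by gcongr
  have t2 : C * a * ((p + 4) * a + r + s) ≤ C * a * (R * a) := by gcongr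
  have hQp : 0 ≤ Q := le_trans (by positivity) hQ0
  have t3 : Q * ((p + 4) * a + r + 1 + 1) ≤ Q * ((p + 4) * a + r + s) :=
    mul_le_mul_of_nonneg_left (by linarith) hQp
  have hT' : (C + E) * R ≤ a := by
    rw [hE, hR]
    linarith
  have t4 : (C + E) * R * a ^ 2 ≤ Q := by
    calc (C + E) * R * a ^ 2 ≤ a * a ^ 2 := by gcongr
      _ = a ^ 3 := by ring
      _ ≤ Q := hQ0
  have u1 : (Q + E * a) * ((p + 4) * a + r + 1) =
      Q * ((p + 4) * a + r + 1 + 1) + E * a * ((p + 4) * a + r + 1) - Q := by ring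
  have u2 : (Q - C * a) * ((p + 4) * a + r + s) =
      Q * ((p + 4) * a + r + s) - C * a * ((p + 4) * a + r + s) := by ring
  have u3 : (C + E) * R * a ^ 2 = E * a * (R * a) + C * a * (R * a) := by ring
  rw [u1] at s1
  rw [u2] at s2
  rw [u3] at t4
  linarith

/-- Row NS2. -/
theorem ns2_thm (_hEST : ESTStmt) (hTTR : TTRStmt) : NS2Stmt := by
  intro p r hpr K
  have hrp := hpr.rp
  have hp0 : (0 : ℝ) ≤ p := Nat.cast_nonneg p
  have hr0 : (0 : ℝ) ≤ r := Nat.cast_nonneg r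
  -- the inequality for fixed data
  have key : ∀ s S2 S3 : ℕ, ∃ a₀ : ℕ, ∀ a ≥ a₀, 2 ≤ s →
      ns2_P p r s S2 S3 a * ((((p + 3) * a + r + a + 1 : ℕ)) : ℝ) ≤
        kx p r a * ((((p + 3) * a + r + a + s : ℕ)) : ℝ) := by
    intro s S2 S3
    obtain ⟨A, hA⟩ : ∃ A : ℝ, A = ((p : ℝ) + 4) * (p + 3) * (p + 2) / 6 := ⟨_, rfl⟩
    obtain ⟨B, hB⟩ : ∃ B : ℝ, B = (r : ℝ) * (p + 4) * (p + 2) / 2 := ⟨_, rfl⟩
    obtain ⟨M, hM⟩ : ∃ M : ℝ, M = ns2_P p r s S2 S3 0 := ⟨_, rfl⟩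
    obtain ⟨L, hL⟩ : ∃ L : ℝ, L = ns2_P p r s S2 S3 1 - M - A - B := ⟨_, rfl⟩
    obtain ⟨C, hC⟩ : ∃ C : ℝ, C = ((p : ℝ) + 3) * (r + 1) / 2 + (p + 2) / 2 + (r + 1) / 2 :=
      ⟨_, rfl⟩
    obtain ⟨a₀, ha₀⟩ := exists_nat_ge ((C + |L| + |M|) * ((p : ℝ) + 4 + r + s + 1))
    refine ⟨a₀ + 1, fun a ha hs => ?_⟩
    have ha1 : 1 ≤ a := by omega
    have haT := ha₀.trans (show ((a₀ : ℕ) : ℝ) ≤ (a : ℝ) by exact_mod_cast (by omega : a₀ ≤ a))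
    have har : (1 : ℝ) ≤ a := by exact_mod_cast ha1
    have hs0 : (2 : ℝ) ≤ s := by exact_mod_cast hs
    have hA1 : 1 ≤ A := by
      rw [hA]
      have h1 : (3 : ℝ) ≤ ((p : ℝ) + 4) := by linarith
      have h2 : (2 : ℝ) ≤ ((p : ℝ) + 3) := by linarith
      have h3 : (1 : ℝ) ≤ ((p : ℝ) + 2) := by linarith
      have : (3 : ℝ) * 2 * 1 ≤ ((p : ℝ) + 4) * (p + 3) * (p + 2) := by gcongr
      linarith
    have hB0 : 0 ≤ B := by rw [hB]; positivity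
    have hC0 : 0 ≤ C := by rw [hC]; positivity
    have hk := ns2_kx hTTR p r a hrp ha1
    have hp := ns2_poly p r s S2 S3 a
    rw [← hA, ← hB, ← hC] at hk
    rw [← hA, ← hB, ← hM, ← hL] at hp
    have h := ns2_fin A B C L M p r s a _ _ hA1 hB0 hC0 hp0 hr0 hs0 har haT hp hk
    have eN1 : ((((p + 3) * a + r + a + 1 : ℕ)) : ℝ) = ((p : ℝ) + 4) * a + r + 1 := by
      push_cast
      ring
    have eN2 : ((((p + 3) * a + r + a + s : ℕ)) : ℝ) = ((p : ℝ) + 4) * a + r + s := by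
      push_cast
      ring
    rw [eN1, eN2]
    exact h
  choose f hf using key
  set I := (Finset.range (K + 1)) ×ˢ (Finset.range ((p + 4) * K ^ 2 + 1)) ×ˢ
    (Finset.range ((p + 4) * K ^ 3 + 1)) with hI
  refine ⟨I.sup (fun x => f x.1 x.2.1 x.2.2), fun a ha s hs2 hsK n σ hn hσ hsum => ?_⟩
  rw [ns2_Psi p r a s n σ hn hsum]
  have b2 : ∑ j, σ j ^ 2 ≤ (p + 4) * K ^ 2 := by
    calc ∑ j, σ j ^ 2 ≤ ∑ _j : Fin (p + 4), K ^ 2 :=
          Finset.sum_le_sum fun j _ => Nat.pow_le_pow_left (hσ j) 2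
      _ = (p + 4) * K ^ 2 := by simp
  have b3 : ∑ j, σ j ^ 3 ≤ (p + 4) * K ^ 3 := by
    calc ∑ j, σ j ^ 3 ≤ ∑ _j : Fin (p + 4), K ^ 3 :=
          Finset.sum_le_sum fun j _ => Nat.pow_le_pow_left (hσ j) 3
      _ = (p + 4) * K ^ 3 := by simp
  have hmem : (s, ∑ j, σ j ^ 2, ∑ j, σ j ^ 3) ∈ I := by
    rw [hI]
    simp only [Finset.mem_product, Finset.mem_range]
    exact ⟨by omega, by omega, by omega⟩
  have hle : f s (∑ j, σ j ^ 2) (∑ j, σ j ^ 3) ≤ a :=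
    (Finset.le_sup (f := fun x => f x.1 x.2.1 x.2.2) hmem).trans ha
  exact hf s _ _ a hle hs2

end Pool.HZ7
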